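import Mathlib
import Pool.Agent.DegCount.Core

/-!
# The number of copies of a graph in `k`-degenerate graphs

The exact order of `C(H, D_k, n)` for every `k`-degenerate graph `H`: the exponent is the largest
size of an independent set of vertices of degree at most `k`. It is at most the flap number
`f_k(H)`, and for every `k ≥ 2` it can be smaller.
-/

set_option autoImplicit false

namespace Pool.Agent.Results.MP_82152b_co.ExactExponent

open Pool.Agent.DegCount

universe u

/-- `G` is `k`-degenerate: every subgraph (with at least one vertex) has a vertex of degree at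
most `k` -/
def KDegenerate {V : Type u} (k : ℕ) (G : SimpleGraph V) : Prop :=
  ∀ S : G.Subgraph, S.verts.Nonempty → ∃ v ∈ S.verts, (S.neighborSet v).ncard ≤ k

/-- `C(H, D_k, n)`: the maximum number of subgraphs isomorphic to `H` of a `k`-degenerate graph
with `n` vertices -/
noncomputable def maxCopies {V : Type u} (k : ℕ) (H : SimpleGraph V) (n : ℕ) : ℕ :=
  sSup {c : ℕ | ∃ G : SimpleGraph (Fin n), KDegenerate k G ∧ G.copyCount H = c}

/-- `(A, B)` is a `(≤ s)`-separation of `H` -/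
def IsSeparation {V : Type u} {H : SimpleGraph V} (s : ℕ) (A B : H.Subgraph) : Prop :=
  A ⊔ B = ⊤ ∧ (∀ x y, A.Adj x y → ¬ B.Adj x y) ∧ (A.verts \ B.verts).Nonempty ∧
    (B.verts \ A.verts).Nonempty ∧ (A.verts ∩ B.verts).ncard ≤ s

/-- the separations `(A, B)` and `(C, D)` are independent -/
def Independent {V : Type u} {H : SimpleGraph V} (A B C D : H.Subgraph) : Prop :=
  (∀ x y, A.Adj x y → ¬ C.Adj x y) ∧ Disjoint (A.verts \ B.verts) (C.verts \ D.verts)

open scoped Classical in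
/-- `f_s(H)`: the maximum size of a family of pairwise independent `(≤ s)`-separations, and `1` if
there is no `(≤ s)`-separation -/
noncomputable def flapNumber {V : Type u} (s : ℕ) (H : SimpleGraph V) : ℕ :=
  if ∃ A B : H.Subgraph, IsSeparation s A B then
    sSup {m : ℕ | ∃ A B : Fin m → H.Subgraph, (∀ i, IsSeparation s (A i) (B i)) ∧
      ∀ i j, i ≠ j → Independent (A i) (B i) (A j) (B j)}
  else 1

/-- `α_k(H)`: the largest size of an independent set of vertices of degree at most `k` -/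
noncomputable def stableNumber {V : Type u} (k : ℕ) (H : SimpleGraph V) : ℕ :=
  sSup {m : ℕ | ∃ I : Finset V, I.card = m ∧ (∀ x ∈ I, ∀ y ∈ I, ¬ H.Adj x y) ∧
    ∀ x ∈ I, (H.neighborSet x).ncard ≤ k}

/-! ### degeneracy -/

theorem deg_of_kDegenerate {V : Type u} (k : ℕ) (G : SimpleGraph V) (h : KDegenerate k G) :
    Deg k G := by
  intro S hS
  obtain ⟨v, hv, hc⟩ := h ((⊤ : G.Subgraph).induce (S : Set V)) (by simpa using hS)
  have hv' : v ∈ S := by simpa using hv
  refine ⟨v, hv', le_trans (le_of_eq ?_) hc⟩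
  congr 1
  ext w
  simp [hv']

theorem kDegenerate_of_deg {V : Type u} [Finite V] (k : ℕ) (G : SimpleGraph V) (h : Deg k G) :
    KDegenerate k G := by
  classical
  intro S hS
  have := Fintype.ofFinite V
  obtain ⟨v, hv, hc⟩ := h S.verts.toFinset (by simpa using hS)
  refine ⟨v, by simpa using hv, le_trans (Set.ncard_le_ncard ?_ (Set.toFinite _)) hc⟩
  intro w hw
  have hadj : S.Adj v w := hw
  exact ⟨by simpa using hadj.snd_mem, hadj.adj_sub⟩

/-! ### the exponent -/

theorem stable_bdd {V : Type u} [Fintype V] (k : ℕ) (H : SimpleGraph V) :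
    BddAbove {m : ℕ | ∃ I : Finset V, I.card = m ∧ (∀ x ∈ I, ∀ y ∈ I, ¬ H.Adj x y) ∧
      ∀ x ∈ I, (H.neighborSet x).ncard ≤ k} := by
  refine ⟨Fintype.card V, ?_⟩
  rintro m ⟨I, rfl, -, -⟩
  exact Finset.card_le_univ I

theorem le_stable {V : Type u} [Fintype V] (k : ℕ) (H : SimpleGraph V) (I : Finset V)
    (h1 : ∀ x ∈ I, ∀ y ∈ I, ¬ H.Adj x y) (h2 : ∀ x ∈ I, (H.neighborSet x).ncard ≤ k) :
    I.card ≤ stableNumber k H :=
  le_csSup (stable_bdd k H) ⟨I, rfl, h1, h2⟩

theorem exists_stable {V : Type u} [Fintype V] (k : ℕ) (H : SimpleGraph V) :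
    ∃ I : Finset V, I.card = stableNumber k H ∧ (∀ x ∈ I, ∀ y ∈ I, ¬ H.Adj x y) ∧
      ∀ x ∈ I, (H.neighborSet x).ncard ≤ k := by
  have h : {m : ℕ | ∃ I : Finset V, I.card = m ∧ (∀ x ∈ I, ∀ y ∈ I, ¬ H.Adj x y) ∧
      ∀ x ∈ I, (H.neighborSet x).ncard ≤ k}.Nonempty := ⟨0, ∅, by simp⟩
  exact Nat.sSup_mem h (stable_bdd k H)

theorem lab_eq {V : Type u} [Fintype V] {n : ℕ} (H : SimpleGraph V) (G : SimpleGraph (Fin n)) :
    G.labelledCopyCount H = Nat.card (H.Copy G) := by
  classical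
  unfold SimpleGraph.labelledCopyCount
  rw [Nat.card_eq_fintype_card]
  congr!

/-- upper bound for a single graph -/
theorem copyCount_le {V : Type u} [Fintype V] [Nonempty V] (k : ℕ) (H : SimpleGraph V) (n : ℕ)
    (G : SimpleGraph (Fin n)) (hG : KDegenerate k G) :
    G.copyCount H ≤ (k * Fintype.card V + 1) ^ Fintype.card V * n ^ stableNumber k H := by
  classical
  rcases Nat.eq_zero_or_pos n with rfl | hn
  · have hempty : IsEmpty (H.Copy G) :=
      ⟨fun φ => (φ (Classical.arbitrary V)).elim0⟩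
    have h0 : G.labelledCopyCount H = 0 := by
      rw [lab_eq]
      exact Nat.card_of_isEmpty
    have h1 := SimpleGraph.copyCount_le_labelledCopyCount (G := G) (H := H)
    omega
  · have h1 := SimpleGraph.copyCount_le_labelledCopyCount (G := G) (H := H)
    have h2 := copies_le H G k (stableNumber k H) (deg_of_kDegenerate k G hG)
      (fun I => le_stable k H I) ⟨⟨0, hn⟩⟩
    rw [Fintype.card_fin] at h2
    rw [lab_eq] at h1
    exact h1.trans h2

theorem max_bdd {V : Type u} [Fintype V] [Nonempty V] (k : ℕ) (H : SimpleGraph V) (n : ℕ) :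
    BddAbove {c : ℕ | ∃ G : SimpleGraph (Fin n), KDegenerate k G ∧ G.copyCount H = c} := by
  refine ⟨(k * Fintype.card V + 1) ^ Fintype.card V * n ^ stableNumber k H, ?_⟩
  rintro c ⟨G, hG, rfl⟩
  exact copyCount_le k H n G hG

theorem max_le {V : Type u} [Fintype V] [Nonempty V] (k : ℕ) (H : SimpleGraph V) (n : ℕ) :
    maxCopies k H n ≤ (k * Fintype.card V + 1) ^ Fintype.card V * n ^ stableNumber k H := by
  apply csSup_le'
  rintro c ⟨G, hG, rfl⟩
  exact copyCount_le k H n G hG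

theorem le_max {V : Type u} [Fintype V] [Nonempty V] (k : ℕ) (H : SimpleGraph V)
    (hH : KDegenerate k H) (n : ℕ) (hn : Fintype.card V ≤ n) :
    (n / Fintype.card V) ^ stableNumber k H ≤ maxCopies k H n := by
  obtain ⟨I, hI, h1, h2⟩ := exists_stable k H
  obtain ⟨G, hG, hc⟩ := exists_many k H (deg_of_kDegenerate k H hH) I h1 h2 n hn
  rw [← hI]
  exact hc.trans (le_csSup (max_bdd k H n) ⟨G, kDegenerate_of_deg k G hG, rfl⟩)

theorem floor_bound (a n : ℕ) (ha : 0 < a) (hn : a ≤ n) :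
    (n : ℝ) / (2 * a) ≤ ((n / a : ℕ) : ℝ) := by
  rw [div_le_iff₀ (by positivity)]
  have h1 : n ≤ 2 * a * (n / a) := by
    have h2 := Nat.div_add_mod n a
    have h3 := Nat.mod_lt n ha
    have h4 : 1 ≤ n / a := (Nat.one_le_div_iff ha).mpr hn
    have h5 : a ≤ a * (n / a) := Nat.le_mul_of_pos_right a h4
    have h6 : 2 * a * (n / a) = a * (n / a) + a * (n / a) := by ring
    omega
  calc (n : ℝ) ≤ ((2 * a * (n / a) : ℕ) : ℝ) := by exact_mod_cast h1
    _ = ((n / a : ℕ) : ℝ) * (2 * a) := by push_cast; ring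

/-! ### comparison with the flap number -/

theorem flap_bdd {V : Type u} [Fintype V] (s : ℕ) (H : SimpleGraph V) :
    BddAbove {m : ℕ | ∃ A B : Fin m → H.Subgraph, (∀ i, IsSeparation s (A i) (B i)) ∧
      ∀ i j, i ≠ j → Independent (A i) (B i) (A j) (B j)} := by
  refine ⟨Fintype.card V, ?_⟩
  rintro m ⟨A, B, h1, h2⟩
  choose x hx using fun i => (h1 i).2.2.1
  have hinj : Function.Injective x := by
    intro i j hij
    by_contra hne
    refine Set.disjoint_left.mp (h2 i j hne).2 (hx i) ?_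
    rw [hij]
    exact hx j
  have := Fintype.card_le_of_injective x hinj
  simpa using this

theorem le_flap {V : Type u} [Fintype V] (s : ℕ) (H : SimpleGraph V) (m : ℕ) (hm : 0 < m)
    (A B : Fin m → H.Subgraph) (h1 : ∀ i, IsSeparation s (A i) (B i))
    (h2 : ∀ i j, i ≠ j → Independent (A i) (B i) (A j) (B j)) : m ≤ flapNumber s H := by
  have hex : ∃ A B : H.Subgraph, IsSeparation s A B := ⟨_, _, h1 ⟨0, hm⟩⟩
  rw [flapNumber, if_pos hex]
  exact le_csSup (flap_bdd s H) ⟨A, B, h1, h2⟩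

theorem one_le_flap {V : Type u} [Fintype V] (s : ℕ) (H : SimpleGraph V) :
    1 ≤ flapNumber s H := by
  by_cases hex : ∃ A B : H.Subgraph, IsSeparation s A B
  · obtain ⟨A, B, hAB⟩ := hex
    refine le_flap s H 1 one_pos (fun _ => A) (fun _ => B) (fun _ => hAB) ?_
    intro i j hij
    exact absurd (Subsingleton.elim i j) hij
  · rw [flapNumber, if_neg hex]

/-- the star at `v` -/
def starAt {V : Type u} (H : SimpleGraph V) (v : V) : H.Subgraph where
  verts := {w | w = v ∨ H.Adj v w}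
  Adj a b := H.Adj a b ∧ (a = v ∨ b = v)
  adj_sub h := h.1
  edge_vert := by
    rintro a b ⟨h, rfl | rfl⟩
    · exact Or.inl rfl
    · exact Or.inr h.symm
  symm := ⟨fun _ _ h => ⟨h.1.symm, h.2.symm⟩⟩

/-- the rest -/
def restAt {V : Type u} (H : SimpleGraph V) (v : V) : H.Subgraph where
  verts := {w | w ≠ v}
  Adj a b := H.Adj a b ∧ a ≠ v ∧ b ≠ v
  adj_sub h := h.1
  edge_vert := fun h => h.2.1
  symm := ⟨fun _ _ h => ⟨h.1.symm, h.2.2, h.2.1⟩⟩

theorem star_sep {V : Type u} [Finite V] (k : ℕ) (H : SimpleGraph V) (v w : V) (hvw : w ≠ v)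
    (hadj : ¬ H.Adj v w) (hk : (H.neighborSet v).ncard ≤ k) :
    IsSeparation k (starAt H v) (restAt H v) := by
  refine ⟨?_, ?_, ⟨v, Or.inl rfl, fun h => h rfl⟩, ⟨w, hvw, ?_⟩, ?_⟩
  · ext a b
    · simp only [SimpleGraph.Subgraph.verts_sup, starAt, restAt, Set.mem_union,
        Set.mem_ofPred_eq, SimpleGraph.Subgraph.verts_top, Set.mem_univ, iff_true]
      by_cases h : a = v
      · exact Or.inl (Or.inl h)
      · exact Or.inr h
    · simp only [SimpleGraph.Subgraph.sup_adj, starAt, restAt, SimpleGraph.Subgraph.top_adj]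
      tauto
  · rintro a b ⟨_, h1⟩ ⟨_, h2, h3⟩
    exact h1.elim h2 h3
  · rintro (h | h)
    · exact hvw h
    · exact hadj h
  · refine le_trans (Set.ncard_le_ncard ?_ (Set.toFinite _)) hk
    rintro a ⟨h1 | h1, h2⟩
    · exact absurd h1 h2
    · exact h1

theorem stable_le_flap {V : Type u} [Fintype V] (k : ℕ) (H : SimpleGraph V) :
    stableNumber k H ≤ flapNumber k H := by
  obtain ⟨I, hI, h1, h2⟩ := exists_stable k H
  rw [← hI]
  rcases Nat.lt_or_ge I.card 2 with hlt | hge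
  · exact (by omega : I.card ≤ 1).trans (one_le_flap k H)
  · let e : Fin I.card ≃ I := I.equivFin.symm
    have hne : ∀ v ∈ I, ∃ w ∈ I, w ≠ v := fun v _ => Finset.exists_mem_ne (by omega) v
    refine le_flap k H I.card (by omega) (fun i => starAt H (e i).1)
      (fun i => restAt H (e i).1) ?_ ?_
    · intro i
      obtain ⟨w, hw, hwv⟩ := hne (e i).1 (e i).2
      exact star_sep k H (e i).1 w hwv (h1 _ (e i).2 _ hw) (h2 _ (e i).2)
    · intro i j hij
      have hne' : (e i).1 ≠ (e j).1 := fun h => hij (e.injective (Subtype.ext h))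
      constructor
      · rintro a b ⟨hab, ha⟩ ⟨_, hb⟩
        rcases ha with rfl | rfl <;> rcases hb with hb | hb
        · exact hne' hb
        · rw [hb] at hab
          exact h1 _ (e i).2 _ (e j).2 hab
        · rw [hb] at hab
          exact h1 _ (e j).2 _ (e i).2 hab
        · exact hne' hb
      · rw [Set.disjoint_left]
        rintro a ⟨_, ha⟩ ⟨_, hb⟩
        have ha' : a = (e i).1 := not_not.mp ha
        have hb' : a = (e j).1 := not_not.mp hb
        exact hne' (ha'.symm.trans hb')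

/-! ### the examples -/

/-- Edges of the eight-vertex graph `H`: `0 = a`, `1, 2 = x₁, x₂`, `3, 4 = y₁, y₂`,
`5, 6 = z₁, z₂`, `7 = b`. -/
def adjB (u v : Fin 8) : Bool :=
  ((u.val, v.val) ∈ [(0,1),(0,2),(1,3),(1,5),(2,4),(2,6),(3,5),(3,7),(4,6),(4,7),(5,7),(6,7)]) ||
  ((v.val, u.val) ∈ [(0,1),(0,2),(1,3),(1,5),(2,4),(2,6),(3,5),(3,7),(4,6),(4,7),(5,7),(6,7)])

theorem adjB_symm : ∀ u v : Fin 8, adjB u v = true → adjB v u = true := by decide

/-- the join of the eight-vertex graph and a complete graph on `j` vertices -/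
def HJ (j : ℕ) : SimpleGraph (Fin 8 ⊕ Fin j) where
  Adj x y := x ≠ y ∧ ∀ u v, x = Sum.inl u → y = Sum.inl v → adjB u v = true
  symm := ⟨fun _ _ h => ⟨h.1.symm, fun u v h1 h2 => adjB_symm v u (h.2 v u h2 h1)⟩⟩
  loopless := ⟨fun _ h => h.1 rfl⟩

theorem HJ_inl {j : ℕ} {u v : Fin 8} (h : (HJ j).Adj (Sum.inl u) (Sum.inl v)) :
    adjB u v = true := h.2 u v rfl rfl

theorem HJ_inl_inr {j : ℕ} (u : Fin 8) (i : Fin j) : (HJ j).Adj (Sum.inl u) (Sum.inr i) :=
  ⟨by simp, fun _ _ _ h => absurd h (by simp)⟩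

theorem HJ_inr_ne {j : ℕ} (i : Fin j) (x : Fin 8 ⊕ Fin j) (h : x ≠ Sum.inr i) :
    (HJ j).Adj (Sum.inr i) x :=
  ⟨h.symm, fun _ _ h => absurd h (by simp)⟩

theorem ncard_inr (j : ℕ) : (Set.range (Sum.inr : Fin j → Fin 8 ⊕ Fin j)).ncard = j := by
  rw [← Set.image_univ, Set.ncard_image_of_injective _ Sum.inr_injective, Set.ncard_univ]
  simp

theorem ncard_parts (j : ℕ) (F : Finset (Fin 8)) (s : Set (Fin 8 ⊕ Fin j))
    (h : s ⊆ Sum.inl '' (F : Set (Fin 8)) ∪ Set.range Sum.inr) : s.ncard ≤ F.card + j := by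
  refine (Set.ncard_le_ncard h (Set.toFinite _)).trans ((Set.ncard_union_le _ _).trans ?_)
  rw [ncard_inr, Set.ncard_image_of_injective _ Sum.inl_injective, Set.ncard_coe_finset]

theorem HJ_deg (j : ℕ) : Deg (j + 2) (HJ j) := by
  classical
  intro S hS
  by_cases h : ∃ u : Fin 8, Sum.inl u ∈ S
  · let T : Finset (Fin 8) := Finset.univ.filter (fun u => Sum.inl u ∈ S)
    have hT : T.Nonempty := by
      obtain ⟨u, hu⟩ := h
      exact ⟨u, Finset.mem_filter.mpr ⟨Finset.mem_univ _, hu⟩⟩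
    have hmin := T.min'_mem hT
    refine ⟨Sum.inl (T.min' hT), (Finset.mem_filter.mp hmin).2, ?_⟩
    have key : ∀ v : Fin 8, (Finset.univ.filter (fun w => v ≤ w ∧ adjB v w = true)).card ≤ 2 := by
      decide
    refine (ncard_parts j (Finset.univ.filter (fun w => T.min' hT ≤ w ∧
      adjB (T.min' hT) w = true)) _ ?_).trans (by have := key (T.min' hT); omega)
    rintro (w | w) ⟨hw1, hw2⟩
    · left
      refine ⟨w, ?_, rfl⟩
      rw [Finset.mem_coe, Finset.mem_filter]
      exact ⟨Finset.mem_univ _, T.min'_le w (Finset.mem_filter.mpr ⟨Finset.mem_univ _, hw1⟩),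
        HJ_inl hw2⟩
    · exact Or.inr ⟨w, rfl⟩
  · push Not at h
    obtain ⟨v, hv⟩ := hS
    refine ⟨v, hv, (ncard_parts j ∅ _ ?_).trans (by simp)⟩
    rintro (w | w) ⟨hw1, _⟩
    · exact absurd hw1 (h w)
    · exact Or.inr ⟨w, rfl⟩

theorem three_nbrs : ∀ u : Fin 8, u ≠ 0 → ∃ F : Finset (Fin 8), F.card = 3 ∧
    ∀ w ∈ F, w ≠ u ∧ adjB u w = true := by
  have h : ∀ u : Fin 8, u ≠ 0 → ∃ a b c : Fin 8, a ≠ b ∧ a ≠ c ∧ b ≠ c ∧ a ≠ u ∧ b ≠ u ∧ c ≠ u ∧
      adjB u a = true ∧ adjB u b = true ∧ adjB u c = true := by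
    decide
  intro u hu
  obtain ⟨a, b, c, h1, h2, h3, h4, h5, h6, h7, h8, h9⟩ := h u hu
  refine ⟨{a, b, c}, Finset.card_eq_three.2 ⟨a, b, c, h1, h2, h3, rfl⟩, ?_⟩
  intro w hw
  simp only [Finset.mem_insert, Finset.mem_singleton] at hw
  rcases hw with rfl | rfl | rfl
  · exact ⟨h4, h7⟩
  · exact ⟨h5, h8⟩
  · exact ⟨h6, h9⟩

theorem large_of_parts (j : ℕ) (F : Finset (Fin 8)) (s : Set (Fin 8 ⊕ Fin j))
    (h1 : Sum.inl '' (F : Set (Fin 8)) ⊆ s) (t : Set (Fin 8 ⊕ Fin j))
    (ht : t ⊆ Set.range Sum.inr) (h2 : t ⊆ s) : F.card + t.ncard ≤ s.ncard := by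
  have hd : Disjoint (Sum.inl '' (F : Set (Fin 8))) t := by
    rw [Set.disjoint_left]
    rintro _ ⟨x, _, rfl⟩ hx
    obtain ⟨y, hy⟩ := ht hx
    exact absurd hy (by simp)
  have h3 := Set.ncard_union_eq hd (Set.toFinite _) (Set.toFinite _)
  rw [Set.ncard_image_of_injective _ Sum.inl_injective, Set.ncard_coe_finset] at h3
  rw [← h3]
  exact Set.ncard_le_ncard (Set.union_subset h1 h2) (Set.toFinite _)

theorem HJ_stable (j : ℕ) : stableNumber (j + 2) (HJ j) = 1 := by
  classical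
  apply le_antisymm
  · obtain ⟨I, hI, -, h2⟩ := exists_stable (j + 2) (HJ j)
    rw [← hI]
    have hsub : I ⊆ {Sum.inl 0} := by
      intro x hx
      rw [Finset.mem_singleton]
      by_contra hne
      have hk := h2 x hx
      rcases x with u | i
      · have hu : u ≠ 0 := fun h => hne (by rw [h])
        obtain ⟨F, hF, hF2⟩ := three_nbrs u hu
        have := large_of_parts j F ((HJ j).neighborSet (Sum.inl u)) (by
          rintro _ ⟨w, hw, rfl⟩
          refine ⟨?_, ?_⟩
          · intro h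
            exact (hF2 w hw).1 (Sum.inl_injective h).symm
          · intro a b ha hb
            rw [← Sum.inl_injective ha, ← Sum.inl_injective hb]
            exact (hF2 w hw).2) (Set.range Sum.inr) subset_rfl (by
          rintro _ ⟨i, rfl⟩
          exact HJ_inl_inr u i)
        rw [ncard_inr, hF] at this
        omega
      · have := large_of_parts j Finset.univ ((HJ j).neighborSet (Sum.inr i)) (by
          rintro _ ⟨w, _, rfl⟩
          exact HJ_inr_ne i _ (by simp)) (Set.range Sum.inr \ {Sum.inr i}) (fun x hx => hx.1) (by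
          rintro x ⟨_, hx⟩
          exact HJ_inr_ne i x hx)
        have h3 : (Set.range (Sum.inr : Fin j → Fin 8 ⊕ Fin j) \ {Sum.inr i}).ncard = j - 1 := by
          have hmem : (Sum.inr i : Fin 8 ⊕ Fin j) ∈ Set.range (Sum.inr : Fin j → _) := ⟨i, rfl⟩
          rw [Set.ncard_sdiff_singleton_of_mem hmem, ncard_inr]
        rw [h3, Finset.card_univ, Fintype.card_fin] at this
        have hi := i.isLt
        omega
    simpa using Finset.card_le_card hsub
  · have := le_stable (j + 2) (HJ j) {Sum.inl 0} (by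
      intro x hx y hy h
      rw [Finset.mem_singleton] at hx hy
      rw [hx, hy] at h
      exact h.1 rfl) (by
      intro x hx
      rw [Finset.mem_singleton] at hx
      rw [hx]
      refine (ncard_parts j {1, 2} _ ?_).trans (by
        have : ({1, 2} : Finset (Fin 8)).card = 2 := by decide
        omega)
      rintro (w | w) hw
      · left
        refine ⟨w, ?_, rfl⟩
        have h1 := HJ_inl hw
        have key : ∀ w : Fin 8, adjB 0 w = true → w ∈ ({1, 2} : Finset (Fin 8)) := by decide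
        rw [Finset.mem_coe]
        exact key w h1
      · exact Or.inr ⟨w, rfl⟩)
    simpa using this

/-- The flaps of the two separations. -/
def XB (i : Fin 2) (v : Fin 8) : Bool :=
  if i = 0 then (v = 1 ∨ v = 3 ∨ v = 5) else (v = 2 ∨ v = 4 ∨ v = 6)

/-- the same in the join -/
def XJ {j : ℕ} (i : Fin 2) (x : Fin 8 ⊕ Fin j) : Prop := ∃ v, x = Sum.inl v ∧ XB i v = true

/-- The first part of the separation. -/
def SA (j : ℕ) (i : Fin 2) : (HJ j).Subgraph where
  verts := {x | XJ i x ∨ x = Sum.inl 0 ∨ x = Sum.inl 7 ∨ x ∈ Set.range Sum.inr}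
  Adj x y := (HJ j).Adj x y ∧ (XJ i x ∨ XJ i y)
  adj_sub h := h.1
  edge_vert := by
    rintro x y ⟨h, hx | ⟨v, rfl, hv⟩⟩
    · exact Or.inl hx
    · rcases x with u | w
      · have h1 := HJ_inl h
        have key : ∀ (i : Fin 2) (u v : Fin 8), adjB u v = true → XB i v = true →
            XB i u = true ∨ u = 0 ∨ u = 7 := by decide
        rcases key i u v h1 hv with h2 | h2 | h2
        · exact Or.inl ⟨u, rfl, h2⟩
        · exact Or.inr (Or.inl (by rw [h2]))
        · exact Or.inr (Or.inr (Or.inl (by rw [h2])))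
      · exact Or.inr (Or.inr (Or.inr ⟨w, rfl⟩))
  symm := ⟨fun _ _ h => ⟨h.1.symm, h.2.symm⟩⟩

/-- The second part of the separation. -/
def SB (j : ℕ) (i : Fin 2) : (HJ j).Subgraph where
  verts := {x | ¬ XJ i x}
  Adj x y := (HJ j).Adj x y ∧ ¬ XJ i x ∧ ¬ XJ i y
  adj_sub h := h.1
  edge_vert := fun h => h.2.1
  symm := ⟨fun _ _ h => ⟨h.1.symm, h.2.2, h.2.1⟩⟩

theorem sep (j : ℕ) (i : Fin 2) : IsSeparation (j + 2) (SA j i) (SB j i) := by
  have hXJ : ∀ v : Fin 8, XJ i (Sum.inl v : Fin 8 ⊕ Fin j) ↔ XB i v = true := by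
    intro v
    constructor
    · rintro ⟨w, hw, hw2⟩
      rw [Sum.inl_injective hw]
      exact hw2
    · intro h
      exact ⟨v, rfl, h⟩
  refine ⟨?_, ?_, ?_, ?_, ?_⟩
  · ext a b
    · simp only [SimpleGraph.Subgraph.verts_sup, SA, SB, Set.mem_union, Set.mem_ofPred_eq,
        SimpleGraph.Subgraph.verts_top, Set.mem_univ, iff_true]
      tauto
    · simp only [SimpleGraph.Subgraph.sup_adj, SA, SB, SimpleGraph.Subgraph.top_adj]
      tauto
  · rintro a b ⟨_, h1⟩ ⟨_, h2, h3⟩
    exact h1.elim h2 h3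
  · have key : ∀ i : Fin 2, ∃ v : Fin 8, XB i v = true := by decide
    obtain ⟨v, hv⟩ := key i
    exact ⟨Sum.inl v, Or.inl ((hXJ v).mpr hv), fun h => h ((hXJ v).mpr hv)⟩
  · have key : ∀ i : Fin 2, ∃ v : Fin 8, XB i v = false ∧ v ≠ 0 ∧ v ≠ 7 := by decide
    obtain ⟨v, hv, h0, h7⟩ := key i
    refine ⟨Sum.inl v, ?_, ?_⟩
    · intro h
      rw [hXJ, hv] at h
      exact absurd h (by simp)
    · rintro (h | h | h | ⟨w, h⟩)
      · rw [hXJ, hv] at h
        exact absurd h (by simp)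
      · exact h0 (Sum.inl_injective h)
      · exact h7 (Sum.inl_injective h)
      · exact absurd h (by simp)
  · refine (ncard_parts j {0, 7} _ ?_).trans (by
      have : ({0, 7} : Finset (Fin 8)).card = 2 := by decide
      omega)
    rintro x ⟨h1, h2⟩
    rcases h1 with h1 | h1 | h1 | h1
    · exact absurd h1 h2
    · exact Or.inl ⟨0, by simp, h1.symm⟩
    · exact Or.inl ⟨7, by simp, h1.symm⟩
    · exact Or.inr h1

theorem indep (j : ℕ) (a b : Fin 2) (hab : a ≠ b) :
    Independent (SA j a) (SB j a) (SA j b) (SB j b) := by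
  have key : ∀ (a b : Fin 2), a ≠ b → ∀ u v : Fin 8, XB a u = true → XB b v = true →
      u ≠ v ∧ adjB u v = false := by decide
  constructor
  · rintro x y ⟨hadj, h1⟩ ⟨_, h2⟩
    rcases h1 with ⟨u, rfl, hu⟩ | ⟨u, rfl, hu⟩ <;> rcases h2 with ⟨v, hv, hv2⟩ | ⟨v, hv, hv2⟩
    · exact (key a b hab u v hu hv2).1 (Sum.inl_injective hv)
    · subst hv
      have h3 := HJ_inl hadj
      rw [(key a b hab u v hu hv2).2] at h3
      exact absurd h3 (by simp)
    · subst hv
      have h3 := HJ_inl hadj.symm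
      rw [(key a b hab u v hu hv2).2] at h3
      exact absurd h3 (by simp)
    · exact (key a b hab u v hu hv2).1 (Sum.inl_injective hv)
  · rw [Set.disjoint_left]
    rintro x ⟨_, h1⟩ ⟨_, h2⟩
    obtain ⟨u, rfl, hu⟩ := not_not.mp h1
    obtain ⟨v, hv, hv2⟩ := not_not.mp h2
    exact (key a b hab u v hu hv2).1 (Sum.inl_injective hv)

theorem two_le_flap (j : ℕ) : 2 ≤ flapNumber (j + 2) (HJ j) :=
  le_flap (j + 2) (HJ j) 2 two_pos (SA j) (SB j) (sep j) (indep j)

open Filter Topology in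
theorem quotient_tendsto (j : ℕ) :
    Tendsto (fun n : ℕ => (maxCopies (j + 2) (HJ j) n : ℝ) /
      (n : ℝ) ^ flapNumber (j + 2) (HJ j)) atTop (𝓝 0) := by
  set K : ℕ := ((j + 2) * Fintype.card (Fin 8 ⊕ Fin j) + 1) ^ Fintype.card (Fin 8 ⊕ Fin j) with hK
  have h1 : Tendsto (fun n : ℕ => (K : ℝ) / (n : ℝ)) atTop (𝓝 0) :=
    tendsto_const_nhds.div_atTop tendsto_natCast_atTop_atTop
  refine squeeze_zero' (Filter.Eventually.of_forall fun n => by positivity) ?_ h1
  filter_upwards [Filter.eventually_ge_atTop 1] with n hn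
  have hn' : (1 : ℝ) ≤ n := by exact_mod_cast hn
  have hpos : (0 : ℝ) < n := by linarith
  have h2 := max_le (j + 2) (HJ j) n
  rw [HJ_stable, pow_one, ← hK] at h2
  have h3 : (maxCopies (j + 2) (HJ j) n : ℝ) ≤ K * n := by exact_mod_cast h2
  have h4 : (n : ℝ) ^ 2 ≤ (n : ℝ) ^ flapNumber (j + 2) (HJ j) :=
    pow_le_pow_right₀ hn' (two_le_flap j)
  rw [div_le_div_iff₀ (by positivity) hpos]
  calc (maxCopies (j + 2) (HJ j) n : ℝ) * n ≤ K * n * n :=
        mul_le_mul_of_nonneg_right h3 hpos.le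
    _ = K * (n : ℝ) ^ 2 := by ring
    _ ≤ K * (n : ℝ) ^ flapNumber (j + 2) (HJ j) :=
        mul_le_mul_of_nonneg_left h4 (Nat.cast_nonneg _)

open Filter Topology in
/-- (1) For every `k` and every `k`-degenerate graph `H` the order of `C(H, D_k, n)` is
`n ^ α_k(H)`, with explicit constants. (2) The exponent is at most the flap number, for every
graph. (3) For every `k ≥ 2` there is a `k`-degenerate graph `H` with `α_k(H) = 1` and flap number
at least `2`, so that `C(H, D_k, n) / n ^ f_k(H)` tends to `0`. -/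
theorem result :
    (∀ (k : ℕ) (V : Type u) [Fintype V] [Nonempty V] (H : SimpleGraph V), KDegenerate k H →
      ∀ n : ℕ, Fintype.card V ≤ n →
        ((n : ℝ) / (2 * Fintype.card V)) ^ stableNumber k H ≤ maxCopies k H n ∧
        (maxCopies k H n : ℝ) ≤
          ((k : ℝ) * Fintype.card V + 1) ^ Fintype.card V * (n : ℝ) ^ stableNumber k H) ∧
    (∀ (k : ℕ) (V : Type u) [Fintype V] (H : SimpleGraph V),
      stableNumber k H ≤ flapNumber k H) ∧
    (∀ k : ℕ, 2 ≤ k → ∃ (V : Type) (_ : Fintype V) (_ : Nonempty V) (H : SimpleGraph V),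
      KDegenerate k H ∧ stableNumber k H = 1 ∧ 2 ≤ flapNumber k H ∧
      Tendsto (fun n : ℕ => (maxCopies k H n : ℝ) / (n : ℝ) ^ flapNumber k H) atTop (𝓝 0)) := by
  refine ⟨?_, ?_, ?_⟩
  · intro k V _ _ H hH n hn
    constructor
    · have h1 := le_max k H hH n hn
      have h2 : (((n / Fintype.card V : ℕ) : ℝ)) ^ stableNumber k H ≤ maxCopies k H n := by
        exact_mod_cast h1
      refine le_trans ?_ h2
      exact pow_le_pow_left₀ (by positivity) (floor_bound _ n Fintype.card_pos hn) _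
    · exact_mod_cast max_le k H n
  · intro k V _ H
    exact stable_le_flap k H
  · intro k hk
    obtain ⟨j, rfl⟩ : ∃ j, k = j + 2 := ⟨k - 2, by omega⟩
    exact ⟨Fin 8 ⊕ Fin j, inferInstance, ⟨Sum.inl 0⟩, HJ j,
      kDegenerate_of_deg _ _ (HJ_deg j), HJ_stable j, two_le_flap j, quotient_tendsto j⟩

end Pool.Agent.Results.MP_82152b_co.ExactExponent
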